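import Pool.Agent.C4U.Stmts
import Pool.Agent.Helper32_Poly.Morphism

/-!
# Squad C4U, row PRE

Prefix of a word as a machine with a linear clock.
-/

set_option autoImplicit false

namespace Pool.Agent.C4U.H36

open Pool.Agent.C4F (Lt Runs)
open Pool.Agent.Helper32_Poly
open Turing

theorem runs_mono {Γ Δ : Type} (M : TM2ComputableAux Γ Δ) (w : List Γ) (v : List Δ) {s t : ℕ}
    (hst : s ≤ t) (h : Runs M w v s) : Runs M w v t := by
  obtain ⟨h⟩ := h
  exact ⟨⟨h.toEvalsTo, le_trans h.steps_le_m hst⟩⟩

theorem pre : PreStmt := by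
  intro k
  let P : List Lt := List.replicate k Lt.tick ++ [Lt.bar]
  let h : Bool → List Lt := fun b => [if b then Lt.pos else Lt.neg]
  let K : ℕ := ∑ a, (h a).length + 2 * Fintype.card Bool + 1 + 1 + Fintype.card Bool + 4
  let m := morphComputable (id : List Bool → List Bool) (id : List Lt → List Lt)
    (fun w => P ++ w.flatMap h) P h (fun _ => rfl)
  have htime : ∀ n : ℕ, m.time.eval n = n * K + (P.length + 5) + 1 := by
    intro n
    change Polynomial.eval n (Polynomial.X * ((K : ℕ) : Polynomial ℕ)
      + ((P.length + 5 : ℕ) : Polynomial ℕ) + 1) = _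
    simp only [Polynomial.eval_add, Polynomial.eval_mul, Polynomial.eval_X,
      Polynomial.eval_natCast, Nat.cast_id, Polynomial.eval_one]
  refine ⟨m.toTM2ComputableAux, K + (P.length + 5) + 1, fun w => ?_⟩
  have e : List.replicate k Lt.tick ++ Lt.bar :: w.map (fun b => if b then Lt.pos else Lt.neg)
      = P ++ w.flatMap h := by
    have e1 : w.map (fun b => if b then Lt.pos else Lt.neg) = w.flatMap h := List.map_eq_flatMap
    rw [e1]
    simp only [P, List.append_assoc, List.singleton_append]
  rw [e]
  refine runs_mono m.toTM2ComputableAux w (P ++ w.flatMap h) ?_ ⟨m.outputsFun w⟩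
  rw [htime]
  simp only [id_eq]
  have h1 : w.length * K ≤ (w.length + 1) * K := Nat.mul_le_mul_right _ (Nat.le_succ _)
  have h2 : P.length + 5 ≤ (P.length + 5) * (w.length + 1) :=
    Nat.le_mul_of_pos_right _ (Nat.succ_pos _)
  nlinarith [h1, h2]

end Pool.Agent.C4U.H36
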